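import Pool.Agent.Lib.MP_6a1069_gt.Fin2
import Pool.Agent.Lib.MP_6a1069_gt.PL0

/-!
# MP_6a1069_gt: the abelianisation of `PL₀(ℝⁿ)` is countable

`PLH.PL0 n` (file `PL0`) is the group `PL₀(ℝⁿ)` of the problem: permutations `h` of `ℝⁿ` which are
the end of a PL isotopy starting at the identity, with supports in one ball (equivalently, by the
Alexander trick, all compactly supported PL homeomorphisms of `ℝⁿ`, `PLH.PL0_eq`).
-/

namespace Pool.Agent.Results.MP_6a1069_gt.AbelianizationCountable

open PLH

theorem result (n : ℕ) : Countable (Abelianization ↥(PL0 n)) := by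
  rw [PL0_eq]
  exact countable_ab n

end Pool.Agent.Results.MP_6a1069_gt.AbelianizationCountable
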