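import Pool.Agent.Lib.MP_6a1069_gt.LinP
import Pool.Agent.Lib.MP_6a1069_gt.PL0

/-!
# MP_6a1069_gt: line preserving PL homeomorphisms form a perfect group

Definitions (files `Defs2` and `PL0` of `Pool/Agent/Lib/MP_6a1069_gt`):

`PLH.IsPiecewiseLinear f`: the space is a finite union of closed convex polyhedra (finite
intersections of closed half spaces), on each of which `f` is affine.
`PLH.PL0 n`: the group `PL₀(ℝⁿ)` of the problem, that is, the permutations of `ℝⁿ` which are the end
of a PL isotopy starting at the identity with supports in one ball.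
`PLH.PLline v`: the subgroup of the elements `h` of `PL₀(ℝⁿ)` which map every line parallel to `v`
to itself: `h x - x` is a multiple of `v` for every `x`.
-/

namespace Pool.Agent.Results.MP_6a1069_gt.LinePreservingPerfect

open PLH

theorem result (n : ℕ) (v : Fin n → ℝ) (hv : v ≠ 0) : commutator ↥(PLline v) = ⊤ := by
  rw [PLline_eq, eq_top_iff]
  intro x _
  have h2 : (x : Equiv.Perm (Fin n → ℝ)) ∈ ⁅LPc v, LPc v⁆ := LPc_le hv x.2
  rw [← Subgroup.map_subtype_commutator] at h2
  obtain ⟨y, hy, hxy⟩ := h2
  have : y = x := Subtype.ext hxy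
  rw [← this]; exact hy

end Pool.Agent.Results.MP_6a1069_gt.LinePreservingPerfect
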