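import Pool.Agent.Lib.MP_6a1069_gt.Fin1
import Pool.Agent.Lib.MP_6a1069_gt.PL0

/-!
# MP_6a1069_gt: the normal closure of a strictly monotone PL homeomorphism

Definitions (files `Defs2` and `PL0` of `Pool/Agent/Lib/MP_6a1069_gt`):

`PLH.IsPiecewiseLinear f`: the space is a finite union of closed convex polyhedra (finite
intersections of closed half spaces), on each of which `f` is affine.
`PLH.PL0 n`: the group `PL₀(ℝⁿ)` of the problem, that is, the permutations of `ℝⁿ` which are the end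
of a PL isotopy starting at the identity with supports in one ball.
-/

namespace Pool.Agent.Results.MP_6a1069_gt.MonotoneNormalClosure

open PLH

/-- `h` is strictly monotone: `⟨h x - h y, x - y⟩ > 0` for `x ≠ y` (standard inner product). -/
def StrictlyMonotone {n : ℕ} (h : (Fin n → ℝ) → (Fin n → ℝ)) : Prop :=
  ∀ x y, x ≠ y → 0 < ∑ i, (h x i - h y i) * (x i - y i)

theorem mem_comm {n : ℕ} {h : Equiv.Perm (Fin n → ℝ)} (hh : h ∈ PLc (Fin n → ℝ))
    (hm : StrictlyMonotone (h : (Fin n → ℝ) → (Fin n → ℝ))) :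
    h ∈ ⁅PLc (Fin n → ℝ), PLc (Fin n → ℝ)⁆ := by
  obtain ⟨L, h1, h2, h3⟩ := mono_prod hh hm
  rw [h3]
  refine list_prod_mem fun g hg => ?_
  obtain ⟨i, hi⟩ := h2 g hg
  refine LPc_le_comm (v := (Pi.single i (1 : ℝ) : Fin n → ℝ)) ?_ hi
  intro h0
  have := congrFun h0 i
  simp at this

theorem aux (n : ℕ) (g : ↥(PLc (Fin n → ℝ))) (hg : g ≠ 1)
    (hm : StrictlyMonotone ((g : Equiv.Perm (Fin n → ℝ)) : (Fin n → ℝ) → (Fin n → ℝ))) :
    Subgroup.normalClosure {g} = commutator ↥(PLc (Fin n → ℝ)) := by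
  have hn : 1 ≤ n := by
    by_contra h0
    have : n = 0 := by omega
    subst this
    exact hg (Subtype.ext (Equiv.ext fun x => Subsingleton.elim _ _))
  apply le_antisymm
  · refine Subgroup.normalClosure_le_normal ?_
    rw [Set.singleton_subset_iff]
    have h2 := mem_comm g.2 hm
    rw [← Subgroup.map_subtype_commutator] at h2
    obtain ⟨y, hy, hxy⟩ := h2
    have : y = g := Subtype.ext hxy
    rw [← this]; exact hy
  · set N := Subgroup.normalClosure {g} with hN
    have hgN : g ∈ N := Subgroup.subset_normalClosure rfl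
    have hmap : (Subgroup.map (PLc (Fin n → ℝ)).subtype N) ≠ ⊥ := by
      intro h0
      have : ((g : ↥(PLc (Fin n → ℝ))) : Equiv.Perm (Fin n → ℝ)) ∈
          Subgroup.map (PLc (Fin n → ℝ)).subtype N := ⟨g, hgN, rfl⟩
      rw [h0, Subgroup.mem_bot] at this
      exact hg (Subtype.ext this)
    have hnor : N.Normal := Subgroup.normalClosure_normal
    have h2 := (structure_thm hn).1 (Subgroup.map (PLc (Fin n → ℝ)).subtype N)
      (by rintro _ ⟨y, -, rfl⟩; exact y.2)
      (by
        rintro k hk _ ⟨y, hy, rfl⟩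
        exact ⟨⟨k, hk⟩ * y * ⟨k, hk⟩⁻¹, hnor.conj_mem y hy ⟨k, hk⟩, rfl⟩)
      hmap
    rw [← Subgroup.map_subtype_commutator] at h2
    exact (Subgroup.map_le_map_iff_of_injective (PLc (Fin n → ℝ)).subtype_injective).1 h2

theorem result (n : ℕ) (g : ↥(PL0 n)) (hg : g ≠ 1)
    (hm : StrictlyMonotone ((g : Equiv.Perm (Fin n → ℝ)) : (Fin n → ℝ) → (Fin n → ℝ))) :
    Subgroup.normalClosure {g} = commutator ↥(PL0 n) := by
  have key : ∀ G : Subgroup (Equiv.Perm (Fin n → ℝ)), G = PLc (Fin n → ℝ) → ∀ g : ↥G, g ≠ 1 →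
      StrictlyMonotone ((g : Equiv.Perm (Fin n → ℝ)) : (Fin n → ℝ) → (Fin n → ℝ)) →
      Subgroup.normalClosure {g} = commutator ↥G := by
    rintro G rfl g hg hm
    exact aux n g hg hm
  exact key _ (PL0_eq n) g hg hm

end Pool.Agent.Results.MP_6a1069_gt.MonotoneNormalClosure
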