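import Pool.Agent.Lib.MP_6a1069_gt.PP.L25
import Pool.Agent.Lib.MP_6a1069_gt.Tu.PL2
import Pool.Agent.Lib.MP_6a1069_gt.PL0

/-!
# MP_6a1069_gt: PL homeomorphisms which preserve a family of parallel planes

Definitions (files `Defs2` and `PL0` of `Pool/Agent/Lib/MP_6a1069_gt`):

`PLH.IsPiecewiseLinear f`: the space is a finite union of closed convex polyhedra (finite
intersections of closed half spaces), on each of which `f` is affine.
`PLH.PL0 n`: the group `PL₀(ℝⁿ)` of the problem, that is, the permutations of `ℝⁿ` which are the end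
of a PL isotopy starting at the identity with supports in one ball.

`h x - x ∈ V` for all `x` says that `h` maps every translate of `V` to itself.
-/

namespace Pool.Agent.Results.MP_6a1069_gt.PlanePreserving

open PLH

theorem mem_commutator {n : ℕ} {G : Subgroup (Equiv.Perm (Fin n → ℝ))} {h : ↥G}
    (hh : (h : Equiv.Perm (Fin n → ℝ)) ∈ ⁅G, G⁆) : h ∈ commutator ↥G := by
  rw [← Subgroup.map_subtype_commutator] at hh
  obtain ⟨y, hy, hxy⟩ := hh
  have : y = h := Subtype.ext hxy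
  rw [← this]; exact hy

theorem main {m : ℕ} (hm : PLc (Fin m → ℝ) ≤ ⁅PLc (Fin m → ℝ), PLc (Fin m → ℝ)⁆) (n : ℕ)
    (V : Submodule ℝ (Fin n → ℝ)) (hV : Module.finrank ℝ V = m) (h : ↥(PL0 n))
    (hh : ∀ x, (h : Equiv.Perm (Fin n → ℝ)) x - x ∈ V) : h ∈ commutator ↥(PL0 n) := by
  have hmn : m ≤ n := by
    rw [← hV]
    exact (Submodule.finrank_le V).trans_eq (Module.finrank_fin_fun ℝ)
  have h1 := all_dims hm hmn V hV
  have h2 : (h : Equiv.Perm (Fin n → ℝ)) ∈ ⁅PL0 n, PL0 n⁆ := by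
    have h3 : (h : Equiv.Perm (Fin n → ℝ)) ∈ VPc V := ⟨by rw [← PL0_eq]; exact h.2, hh⟩
    have h4 := h1 h3
    rwa [← PL0_eq] at h4
  exact mem_commutator h2

theorem result :
    (∀ (n : ℕ) (V : Submodule ℝ (Fin n → ℝ)), Module.finrank ℝ V = 2 →
      ∀ h : ↥(PL0 n), (∀ x, (h : Equiv.Perm (Fin n → ℝ)) x - x ∈ V) →
        h ∈ commutator ↥(PL0 n)) ∧
    (∀ m : ℕ, commutator ↥(PL0 m) = ⊤ →
      ∀ (n : ℕ) (V : Submodule ℝ (Fin n → ℝ)), Module.finrank ℝ V = m →
        ∀ h : ↥(PL0 n), (∀ x, (h : Equiv.Perm (Fin n → ℝ)) x - x ∈ V) →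
          h ∈ commutator ↥(PL0 n)) := by
  refine ⟨fun n V hV h hh => main PLc2_le n V hV h hh, fun m hm n V hV h hh => ?_⟩
  refine main ?_ n V hV h hh
  intro k hk
  rw [← PL0_eq] at hk ⊢
  rw [← Subgroup.map_subtype_commutator, hm]
  exact ⟨⟨k, hk⟩, Subgroup.mem_top _, rfl⟩

end Pool.Agent.Results.MP_6a1069_gt.PlanePreserving
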